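import Pool.Agent.Helper6.RH.Count2

/-!
A positive proportion of the tuples of forms does not represent given values.
-/

namespace Pool.Agent.Helper6.RH

open Finset

section main
variable {F : Type*} [Field F] [Fintype F] [DecidableEq F] {n : ℕ} {ι : Type*} [Fintype ι]
  [DecidableEq ι] (d : ι → ℕ)

/-- nonzero vectors -/
def NZ (F : Type*) [Field F] [Fintype F] [DecidableEq F] (n : ℕ) : Finset (Fin (n + 1) → F) :=
  univ.filter fun x => x ≠ 0

/-- independent pairs -/
def Ind (F : Type*) [Field F] [Fintype F] [DecidableEq F] (n : ℕ) :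
    Finset ((Fin (n + 1) → F) × (Fin (n + 1) → F)) :=
  univ.filter fun p => p.1 ≠ 0 ∧ ∀ t : F, p.2 ≠ t • p.1

theorem card_NZ : (NZ F n).card + 1 = Fintype.card F ^ (n + 1) := by
  have h1 : NZ F n = univ.erase 0 := by
    unfold NZ
    ext x
    simp
  rw [h1, card_erase_of_mem (mem_univ _), card_univ, Fintype.card_fun, Fintype.card_fin]
  have : 0 < Fintype.card F ^ (n + 1) := by positivity
  omega

theorem card_Ind : (NZ F n).card * (Fintype.card F ^ (n + 1) - Fintype.card F) ≤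
    (Ind F n).card := by
  classical
  have h1 : (Ind F n).card = ∑ x ∈ NZ F n,
      (univ.filter fun y : Fin (n + 1) → F => ∀ t : F, y ≠ t • x).card := by
    have h2 : Ind F n = (NZ F n).biUnion fun x =>
        (univ.filter fun y : Fin (n + 1) → F => ∀ t : F, y ≠ t • x).map
          ⟨fun y => (x, y), fun y y' h => (Prod.mk.inj h).2⟩ := by
      ext ⟨x, y⟩
      unfold Ind NZ
      simp only [mem_filter, mem_univ, true_and, mem_biUnion, mem_map, Function.Embedding.coeFn_mk,
        Prod.mk.injEq]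
      constructor
      · rintro ⟨h1, h2⟩
        exact ⟨x, h1, y, h2, rfl, rfl⟩
      · rintro ⟨x', h1, y', h2, rfl, rfl⟩
        exact ⟨h1, h2⟩
    rw [h2, card_biUnion]
    · exact sum_congr rfl fun x _ => card_map _
    · intro x _ x' _ hxx
      rw [Function.onFun, disjoint_left]
      intro p hp hp'
      rw [mem_map] at hp hp'
      obtain ⟨y, -, rfl⟩ := hp
      obtain ⟨y', -, h⟩ := hp'
      exact hxx (Prod.mk.inj h).1.symm
  rw [h1, ← smul_eq_mul, ← sum_const]
  refine sum_le_sum fun x _ => ?_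
  have h3 : (univ.filter fun y : Fin (n + 1) → F => ∀ t : F, y ≠ t • x) =
      univ \ (univ.image fun t : F => t • x) := by
    ext y
    simp only [mem_filter, mem_univ, true_and, mem_sdiff, mem_image, not_exists]
    exact forall_congr' fun t => ne_comm
  rw [h3, card_sdiff_of_subset (subset_univ _), card_univ, Fintype.card_fun, Fintype.card_fin]
  have h4 : (univ.image fun t : F => t • x).card ≤ Fintype.card F := card_image_le
  omega

/-- number of solutions -/
def N (u : ι → F) (c : Tup F n d) : ℕ :=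
  ∑ x ∈ NZ F n, if c ∈ A1 d u x then 1 else 0

/-- number of independent pairs of solutions -/
def M (u : ι → F) (c : Tup F n d) : ℕ :=
  ∑ p ∈ Ind F n, if c ∈ A2 d u p.1 p.2 then 1 else 0

theorem M_le (u : ι → F) (c : Tup F n d) : M d u c ≤ N d u c * (N d u c - 1) := by
  classical
  have h1 : N d u c = ((NZ F n).filter fun x => c ∈ A1 d u x).card := by
    unfold N
    rw [card_filter]
  have h2 : M d u c = ((Ind F n).filter fun p => c ∈ A2 d u p.1 p.2).card := by
    unfold M
    rw [card_filter]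
  rw [h1, h2, Nat.mul_sub, mul_one, ← offDiag_card]
  refine card_le_card ?_
  rintro ⟨x, y⟩ hp
  simp only [Ind, NZ, A1, A2, mem_filter, mem_univ, true_and, mem_offDiag] at hp ⊢
  obtain ⟨⟨h1, h2⟩, h3, h4⟩ := hp
  refine ⟨⟨h1, h3⟩, ⟨?_, h4⟩, ?_⟩
  · have := h2 0
    rwa [zero_smul] at this
  · rintro rfl
    exact h2 1 (one_smul _ _).symm

theorem sum_N (u : ι → F) :
    (∑ c : Tup F n d, N d u c) * Fintype.card F ^ Fintype.card ι =
      (NZ F n).card * Fintype.card (Tup F n d) := by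
  unfold N
  rw [sum_comm, sum_mul, ← smul_eq_mul, ← sum_const]
  refine sum_congr rfl fun x hx => ?_
  unfold NZ at hx
  rw [mem_filter] at hx
  rw [← card_A1 d u x hx.2]
  congr 1
  rw [← card_filter]
  congr 1
  ext c
  simp

theorem sum_M' (u : ι → F) : ∑ c : Tup F n d, M d u c = ∑ p ∈ Ind F n, (A2 d u p.1 p.2).card := by
  unfold M
  rw [sum_comm]
  refine sum_congr rfl fun p _ => ?_
  rw [← card_filter]
  congr 1
  ext c
  simp

theorem sum_M (hd : ∀ i, 1 ≤ d i) (u : ι → F) :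
    (∑ c : Tup F n d, M d u c) * (Fintype.card F ^ Fintype.card ι * Fintype.card F ^ Fintype.card ι) =
      (Ind F n).card * Fintype.card (Tup F n d) := by
  have h1 : (Ind F n).card * Fintype.card (Tup F n d) =
      ∑ _p ∈ Ind F n, Fintype.card (Tup F n d) := by
    rw [sum_const, smul_eq_mul]
  rw [sum_M', sum_mul, h1]
  refine sum_congr rfl fun p hp => ?_
  unfold Ind at hp
  rw [mem_filter] at hp
  rw [← card_A1 d u p.1 hp.2.1, ← card_A2 d hd u p.1 p.2 hp.2.1 hp.2.2]
  ring

theorem sum_MN (hd : ∀ i, 1 ≤ d i) (hι : Fintype.card ι = n + 1) (u : ι → F) (hu : ∀ i, u i ≠ 0)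
    (i0 i1 : ι) (h01 : i0 ≠ i1) (h0 : 2 ≤ d i0) :
    ∑ c : Tup F n d, M d u c * N d u c ≤ (2 + 2 * d i0) * ∑ c : Tup F n d, M d u c := by
  have h1 : ∑ c : Tup F n d, M d u c * N d u c = ∑ p ∈ Ind F n, ∑ z ∈ NZ F n, f3 d u p.1 p.2 z := by
    unfold M N
    simp_rw [sum_mul_sum]
    rw [sum_comm]
    refine sum_congr rfl fun p _ => ?_
    rw [sum_comm]
    refine sum_congr rfl fun z _ => ?_
    unfold f3
    rw [card_filter]
    rw [← sum_filter_add_sum_filter_not univ (fun c => c ∈ A2 d u p.1 p.2)]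
    have h2 : ∑ c ∈ univ.filter (fun c => ¬ c ∈ A2 d u p.1 p.2),
        ((if c ∈ A2 d u p.1 p.2 then 1 else 0) * if c ∈ A1 d u z then 1 else 0) = 0 := by
      apply sum_eq_zero
      intro c hc
      rw [if_neg (mem_filter.mp hc).2, zero_mul]
    rw [h2, add_zero]
    have h3 : univ.filter (fun c => c ∈ A2 d u p.1 p.2) = A2 d u p.1 p.2 := by
      ext c
      simp
    rw [h3]
    refine sum_congr rfl fun c hc => ?_
    rw [if_pos hc, one_mul]
    unfold A1
    simp only [mem_filter, mem_univ, true_and]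
  rw [h1, sum_M', mul_sum]
  refine sum_le_sum fun p hp => ?_
  unfold Ind at hp
  rw [mem_filter] at hp
  exact sum_z d hd hι u hu p.1 p.2 hp.2.1 hp.2.2 i0 i1 h01 h0 _

theorem pointwise (u : ι → F) (c : Tup F n d) (D : ℕ) :
    D * M d u c + D ^ 2 ≤ D ^ 2 * (N d u c + if N d u c = 0 then 1 else 0) +
      M d u c * N d u c := by
  have h := M_le d u c
  set m := M d u c
  set N' := N d u c
  by_cases h0 : N' = 0
  · rw [if_pos h0]
    rw [h0] at h
    have : m = 0 := by omega
    rw [this, h0]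
    simp
  · rw [if_neg h0, add_zero]
    by_cases h1 : D ≤ N'
    · have h2 : D * m ≤ m * N' := by
        rw [mul_comm m]
        exact Nat.mul_le_mul_right _ h1
      have h3 : D ^ 2 ≤ D ^ 2 * N' := Nat.le_mul_of_pos_right _ (Nat.pos_of_ne_zero h0)
      omega
    · push Not at h1
      obtain ⟨k, hk⟩ : ∃ k, N' = k + 1 := ⟨N' - 1, by omega⟩
      rw [hk] at h h1 ⊢
      rw [Nat.add_sub_cancel] at h
      have h2 : D * m ≤ D * (D * k) :=
        Nat.mul_le_mul_left _ (h.trans (Nat.mul_le_mul_right _ h1.le))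
      nlinarith [Nat.zero_le (m * (k + 1))]

theorem few (hn : 1 ≤ n) (hd : ∀ i, 1 ≤ d i) (hι : Fintype.card ι = n + 1)
    (hq : 5 ≤ Fintype.card F) (u : ι → F)
    (hu : ∀ i, u i ≠ 0) (i0 i1 : ι) (h01 : i0 ≠ i1) (h0 : 2 ≤ d i0) :
    ((univ.filter fun c : Tup F n d => ∃ x, x ≠ 0 ∧ ∀ i, ev (c i) x = u i).card : ℝ) ≤
      (1 - 1 / (2 * (8 + 8 * (d i0 : ℝ)))) * Fintype.card (Tup F n d) := by
  classical
  set q := Fintype.card F with hq'
  set E := Fintype.card (Tup F n d) with hE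
  have hEpos : 0 < E := Fintype.card_pos
  set P : ℝ := (q : ℝ) ^ (n + 1) with hP
  have hq5 : (5 : ℝ) ≤ q := by exact_mod_cast hq
  have hPq : (q : ℝ) ^ 2 ≤ P := by
    rw [hP]
    exact pow_le_pow_right₀ (by linarith) (by omega)
  have hPpos : 0 < P := by rw [hP]; positivity
  -- sums
  have s1 : ((∑ c : Tup F n d, N d u c : ℕ) : ℝ) ≤ E := by
    have h1 := sum_N (F := F) (n := n) d u
    rw [hι] at h1
    have h2 : ((∑ c : Tup F n d, N d u c : ℕ) : ℝ) * P = (NZ F n).card * E := by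
      rw [hP]
      exact_mod_cast h1
    have h3 : ((NZ F n).card : ℝ) + 1 = P := by
      rw [hP]
      exact_mod_cast card_NZ (F := F) (n := n)
    have h4 : ((∑ c : Tup F n d, N d u c : ℕ) : ℝ) * P ≤ E * P := by
      rw [h2, mul_comm (E : ℝ)]
      exact mul_le_mul_of_nonneg_right (by linarith) (by positivity)
    exact le_of_mul_le_mul_right h4 hPpos
  have s2 : (3 / 4 : ℝ) * E ≤ ((∑ c : Tup F n d, M d u c : ℕ) : ℝ) := by
    have h1 := sum_M (F := F) (n := n) d hd u
    rw [hι] at h1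
    have h2 : ((∑ c : Tup F n d, M d u c : ℕ) : ℝ) * (P * P) = (Ind F n).card * E := by
      rw [hP]
      exact_mod_cast h1
    have h3 : ((NZ F n).card : ℝ) + 1 = P := by
      rw [hP]
      exact_mod_cast card_NZ (F := F) (n := n)
    have h4 : ((NZ F n).card : ℝ) * (P - q) ≤ (Ind F n).card := by
      have h5 := card_Ind (F := F) (n := n)
      have h6 : Fintype.card F ≤ Fintype.card F ^ (n + 1) := by
        calc Fintype.card F = Fintype.card F ^ 1 := (pow_one _).symm
          _ ≤ _ := Nat.pow_le_pow_right (by omega) (by omega)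
      have h7 : ((Fintype.card F ^ (n + 1) - Fintype.card F : ℕ) : ℝ) = P - q := by
        rw [Nat.cast_sub h6, hP]
        push_cast
        rfl
      rw [← h7]
      exact_mod_cast h5
    have h5 : (3 / 4 : ℝ) * E * (P * P) ≤ ((∑ c : Tup F n d, M d u c : ℕ) : ℝ) * (P * P) := by
      rw [h2]
      have h6 : (3 / 4 : ℝ) * (P * P) ≤ (Ind F n).card := by
        refine le_trans ?_ h4
        have h7 : ((NZ F n).card : ℝ) = P - 1 := by linarith
        rw [h7]
        nlinarith
      calc (3 / 4 : ℝ) * E * (P * P) = (3 / 4 : ℝ) * (P * P) * E := by ring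
        _ ≤ _ := mul_le_mul_of_nonneg_right h6 (by positivity)
    exact le_of_mul_le_mul_right h5 (by positivity)
  have s3 : ((∑ c : Tup F n d, M d u c : ℕ) : ℝ) ≤ E := by
    have h1 := sum_M (F := F) (n := n) d hd u
    rw [hι] at h1
    have h2 : ((∑ c : Tup F n d, M d u c : ℕ) : ℝ) * (P * P) = (Ind F n).card * E := by
      rw [hP]
      exact_mod_cast h1
    have h3 : ((Ind F n).card : ℝ) ≤ P * P := by
      have : (Ind F n).card ≤ Fintype.card F ^ (n + 1) * Fintype.card F ^ (n + 1) := by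
        refine (card_le_univ _).trans ?_
        rw [Fintype.card_prod, Fintype.card_fun, Fintype.card_fin]
      rw [hP]
      exact_mod_cast this
    have h4 : ((∑ c : Tup F n d, M d u c : ℕ) : ℝ) * (P * P) ≤ E * (P * P) := by
      rw [h2, mul_comm (E : ℝ)]
      exact mul_le_mul_of_nonneg_right h3 (by positivity)
    exact le_of_mul_le_mul_right h4 (by positivity)
  have s4 := sum_MN (F := F) (n := n) d hd hι u hu i0 i1 h01 h0
  set z := (univ.filter fun c : Tup F n d => N d u c = 0).card with hz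
  set C : ℕ := 2 + 2 * d i0 with hC
  -- the inequality
  have key : 2 * C * (∑ c : Tup F n d, M d u c) + (2 * C) ^ 2 * E ≤
      (2 * C) ^ 2 * ((∑ c : Tup F n d, N d u c) + z) + ∑ c : Tup F n d, M d u c * N d u c := by
    have h1 := sum_le_sum fun c (_ : c ∈ (univ : Finset (Tup F n d))) =>
      pointwise d u c (2 * C)
    rw [sum_add_distrib, sum_add_distrib, ← mul_sum, ← mul_sum, sum_add_distrib, sum_const,
      smul_eq_mul, ← card_filter, card_univ] at h1
    rw [mul_comm ((2 * C) ^ 2) E]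
    exact h1
  have key' : (2 * C : ℝ) * ((∑ c : Tup F n d, M d u c : ℕ) : ℝ) + (2 * C) ^ 2 * E ≤
      (2 * C) ^ 2 * (((∑ c : Tup F n d, N d u c : ℕ) : ℝ) + z) + C * E := by
    have h1 : ((∑ c : Tup F n d, M d u c * N d u c : ℕ) : ℝ) ≤ C * E := by
      calc ((∑ c : Tup F n d, M d u c * N d u c : ℕ) : ℝ) ≤ ((C * ∑ c : Tup F n d, M d u c : ℕ) : ℝ) := by
            exact_mod_cast s4
        _ = C * ((∑ c : Tup F n d, M d u c : ℕ) : ℝ) := by push_cast; rfl
        _ ≤ C * E := mul_le_mul_of_nonneg_left s3 (by positivity)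
    have h2 : (2 * C : ℝ) * ((∑ c : Tup F n d, M d u c : ℕ) : ℝ) + (2 * C) ^ 2 * E ≤
      (2 * C) ^ 2 * (((∑ c : Tup F n d, N d u c : ℕ) : ℝ) + z) + ((∑ c : Tup F n d, M d u c * N d u c : ℕ) : ℝ) := by
      exact_mod_cast key
    linarith
  have hC2 : (2 : ℝ) ≤ C := by
    rw [hC]
    push_cast
    have : (0 : ℝ) ≤ d i0 := by positivity
    linarith
  have hzlow : (E : ℝ) ≤ 8 * C * z := by
    have h1 : (2 * C : ℝ) * (3 / 4 * E) ≤ (2 * C) ^ 2 * z + C * E := by
      have h2 : (2 * C : ℝ) * (3 / 4 * E) ≤ 2 * C * ((∑ c : Tup F n d, M d u c : ℕ) : ℝ) :=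
        mul_le_mul_of_nonneg_left s2 (by positivity)
      have h3 : ((2 * C : ℝ)) ^ 2 * ((∑ c : Tup F n d, N d u c : ℕ) : ℝ) ≤ (2 * C) ^ 2 * E :=
        mul_le_mul_of_nonneg_left s1 (by positivity)
      linarith [key']
    have h4 : (C : ℝ) * E ≤ C * (8 * C * z) := by nlinarith
    exact le_of_mul_le_mul_left h4 (by linarith)
  -- conclusion
  have hcompl : (univ.filter fun c : Tup F n d => ∃ x, x ≠ 0 ∧ ∀ i, ev (c i) x = u i).card + z =
      E := by
    rw [hE, ← card_univ, ← card_filter_add_card_filter_not (s := (univ : Finset (Tup F n d)))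
      (fun c : Tup F n d => ∃ x, x ≠ 0 ∧ ∀ i, ev (c i) x = u i)]
    congr 1
    rw [hz]
    congr 1
    refine filter_congr fun c _ => ?_
    unfold N NZ A1
    rw [sum_eq_zero_iff]
    simp only [mem_filter, mem_univ, true_and, ite_eq_right_iff, one_ne_zero, imp_false, not_exists,
      not_and]
  have hcompl' : ((univ.filter fun c : Tup F n d =>
      ∃ x, x ≠ 0 ∧ ∀ i, ev (c i) x = u i).card : ℝ) = E - z := by
    rw [eq_sub_iff_add_eq]
    exact_mod_cast hcompl
  rw [hcompl']
  have hCr : (C : ℝ) = 2 + 2 * d i0 := by rw [hC]; push_cast; rfl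
  have h8 : 2 * (8 + 8 * (d i0 : ℝ)) = 8 * C := by rw [hCr]; ring
  rw [h8, sub_mul, one_mul]
  have h9 : 1 / (8 * (C : ℝ)) * E ≤ z := by
    rw [one_div, inv_mul_le_iff₀ (by linarith)]
    exact hzlow
  linarith

/-- more than `n + 1` forms -/
theorem few' (hι : n + 2 ≤ Fintype.card ι) (u : ι → F) :
    ((univ.filter fun c : Tup F n d => ∃ x, x ≠ 0 ∧ ∀ i, ev (c i) x = u i).card : ℝ) ≤
      1 / (Fintype.card F) * Fintype.card (Tup F n d) := by
  classical
  set q := Fintype.card F with hq'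
  set E := Fintype.card (Tup F n d) with hE
  have hq1 : 1 ≤ q := Fintype.card_pos
  have h1 := sum_N (F := F) (n := n) d u
  have h2 : (univ.filter fun c : Tup F n d => ∃ x, x ≠ 0 ∧ ∀ i, ev (c i) x = u i).card ≤
      ∑ c : Tup F n d, N d u c := by
    rw [card_filter]
    refine sum_le_sum fun c _ => ?_
    split_ifs with h
    · obtain ⟨x, hx, hx'⟩ := h
      unfold N
      have h3 : (if c ∈ A1 d u x then 1 else 0) = (1 : ℕ) := by
        rw [if_pos]
        unfold A1
        simpa using hx'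
      refine h3.symm.le.trans ?_
      exact single_le_sum (f := fun x => if c ∈ A1 d u x then 1 else 0)
        (fun _ _ => Nat.zero_le _) (by unfold NZ; simpa using hx)
    · exact Nat.zero_le _
  have h3 : (∑ c : Tup F n d, N d u c) * q * q ^ (n + 1) ≤ E * q ^ (n + 1) := by
    calc (∑ c : Tup F n d, N d u c) * q * q ^ (n + 1) = (∑ c : Tup F n d, N d u c) * q ^ (n + 2) := by ring
      _ ≤ (∑ c : Tup F n d, N d u c) * q ^ Fintype.card ι :=
        Nat.mul_le_mul_left _ (Nat.pow_le_pow_right hq1 hι)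
      _ = (NZ F n).card * E := h1
      _ ≤ q ^ (n + 1) * E := by
        refine Nat.mul_le_mul_right _ ?_
        have := card_NZ (F := F) (n := n)
        rw [hq', ← this]
        exact Nat.le_succ _
      _ = _ := mul_comm _ _
  have h4 : (∑ c : Tup F n d, N d u c) * q ≤ E := Nat.le_of_mul_le_mul_right h3 (by positivity)
  have h5 : ((univ.filter fun c : Tup F n d =>
      ∃ x, x ≠ 0 ∧ ∀ i, ev (c i) x = u i).card : ℝ) * q ≤ E := by
    exact_mod_cast (Nat.mul_le_mul_right _ h2).trans h4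
  rw [one_div, ← div_eq_inv_mul, le_div_iff₀ (by positivity)]
  exact h5

theorem few_ex (hn : 1 ≤ n) (hd : ∀ i, 1 ≤ d i) (hι : Fintype.card ι = n + 1)
    (hq : 5 ≤ Fintype.card F) (u : ι → F)
    (hu : ∀ i, u i ≠ 0) (i0 i1 : ι) (h01 : i0 ≠ i1) (h0 : 2 ≤ d i0) :
    ∃ SS : Finset (Tup F n d), (∀ c, (∃ x, x ≠ 0 ∧ ∀ i, ev (c i) x = u i) → c ∈ SS) ∧
      (SS.card : ℝ) ≤ (1 - 1 / (2 * (8 + 8 * (d i0 : ℝ)))) * Fintype.card (Tup F n d) :=
  ⟨_, fun c hc => mem_filter.mpr ⟨mem_univ c, hc⟩, few d hn hd hι hq u hu i0 i1 h01 h0⟩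

theorem few_ex' (hι : n + 2 ≤ Fintype.card ι) (u : ι → F) :
    ∃ SS : Finset (Tup F n d), (∀ c, (∃ x, x ≠ 0 ∧ ∀ i, ev (c i) x = u i) → c ∈ SS) ∧
      (SS.card : ℝ) ≤ 1 / (Fintype.card F) * Fintype.card (Tup F n d) :=
  ⟨_, fun c hc => mem_filter.mpr ⟨mem_univ c, hc⟩, few' d hι u⟩

end main

end Pool.Agent.Helper6.RH
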