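import Mathlib

/-!
Points of the complement of a hypersurface over a principal ideal domain.
-/

namespace Pool.Agent.Helper6.RH

open Finset MvPolynomial

theorem eval₂_smul_point {n : ℕ} {T : Type*} [CommRing T] (g : ℤ →+* T) (D : ℕ)
    (G : MvPolynomial (Fin (n + 1)) ℤ) (hG : G.IsHomogeneous D) (c : T) (z : Fin (n + 1) → T) :
    eval₂ g (fun k => c * z k) G = c ^ D * eval₂ g z G := by
  rw [eval₂_eq', eval₂_eq', mul_sum]
  refine sum_congr rfl fun m hm => ?_
  have h1 : ∏ i, (c * z i) ^ m i = c ^ D * ∏ i, z i ^ m i := by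
    simp only [mul_pow]
    rw [prod_mul_distrib, prod_pow_eq_pow_sum]
    congr 2
    have h2 := hG (mem_support_iff.mp hm)
    have h3 : m.degree = D := by
      rw [Finsupp.degree_eq_weight_one]
      exact h2
    rw [Finsupp.degree_eq_sum] at h3
    exact h3
  rw [h1]
  ring

section away

attribute [local instance] MvPolynomial.gradedAlgebra

variable {n D : ℕ} (f : MvPolynomial (Fin (n + 1)) ℤ)

/-- The fraction `G / f`. -/
noncomputable def m1 (hf : f.IsHomogeneous D) (G : MvPolynomial (Fin (n + 1)) ℤ) (hG : G.IsHomogeneous D) :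
    HomogeneousLocalization.Away (homogeneousSubmodule (Fin (n + 1)) ℤ) f :=
  HomogeneousLocalization.Away.mk (homogeneousSubmodule (Fin (n + 1)) ℤ)
    (show f ∈ homogeneousSubmodule (Fin (n + 1)) ℤ D from hf) 1 G
    (show G ∈ homogeneousSubmodule (Fin (n + 1)) ℤ (1 • D) by rw [one_smul]; exact hG)

/-- `1 / f`. -/
noncomputable def w : Localization.Away f := Localization.mk 1 ⟨f ^ 1, ⟨1, rfl⟩⟩

theorem val_m1 (hf : f.IsHomogeneous D) (G : MvPolynomial (Fin (n + 1)) ℤ) (hG : G.IsHomogeneous D) :
    (m1 f hf G hG).val = algebraMap _ _ G * w f := by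
  unfold m1 w
  rw [HomogeneousLocalization.Away.val_mk, ← Localization.mk_one_eq_algebraMap,
    Localization.mk_mul, mul_one, one_mul]

theorem alg_w : algebraMap _ _ f * w f = 1 := by
  unfold w
  rw [← Localization.mk_one_eq_algebraMap, Localization.mk_mul, mul_one, one_mul,
    ← Localization.mk_one, Localization.mk_eq_mk_iff, Localization.r_iff_exists]
  exact ⟨1, by simp⟩

/-- evaluation at the fractions `X_k X_j^(D-1) / f` -/
theorem eval_Y (hf : f.IsHomogeneous D) (hD : 1 ≤ D) (j : Fin (n + 1)) (G : MvPolynomial (Fin (n + 1)) ℤ)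
    (hG : G.IsHomogeneous D)
    (hY : ∀ k, (X k * X j ^ (D - 1) : MvPolynomial (Fin (n + 1)) ℤ).IsHomogeneous D)
    (hX : (X j ^ D : MvPolynomial (Fin (n + 1)) ℤ).IsHomogeneous D) :
    eval₂ (Int.castRingHom _) (fun k => m1 f hf (X k * X j ^ (D - 1)) (hY k)) G =
      m1 f hf G hG * m1 f hf (X j ^ D) hX ^ (D - 1) := by
  apply HomogeneousLocalization.val_injective
  rw [← HomogeneousLocalization.algebraMap_apply, ← HomogeneousLocalization.algebraMap_apply,
    hom_eval₂, map_mul, map_pow, HomogeneousLocalization.algebraMap_apply,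
    HomogeneousLocalization.algebraMap_apply, val_m1, val_m1]
  have h1 : (fun k => (algebraMap (HomogeneousLocalization (homogeneousSubmodule (Fin (n + 1)) ℤ)
      (Submonoid.powers f)) (Localization (Submonoid.powers f)))
        (m1 f hf (X k * X j ^ (D - 1)) (hY k))) =
      fun k => (algebraMap (MvPolynomial (Fin (n + 1)) ℤ) (Localization (Submonoid.powers f))
        (X j ^ (D - 1)) * w f) *
        algebraMap (MvPolynomial (Fin (n + 1)) ℤ) (Localization (Submonoid.powers f)) (X k) := by
    funext k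
    rw [HomogeneousLocalization.algebraMap_apply, val_m1, map_mul]
    ring
  rw [h1, eval₂_smul_point _ D G hG]
  have h2 : eval₂ ((algebraMap (HomogeneousLocalization (homogeneousSubmodule (Fin (n + 1)) ℤ)
      (Submonoid.powers f)) (Localization (Submonoid.powers f))).comp
      (Int.castRingHom (HomogeneousLocalization.Away (homogeneousSubmodule (Fin (n + 1)) ℤ) f)))
      (fun k => algebraMap (MvPolynomial (Fin (n + 1)) ℤ)
        (Localization (Submonoid.powers f)) (X k)) G =
      algebraMap (MvPolynomial (Fin (n + 1)) ℤ) (Localization (Submonoid.powers f)) G := by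
    have h3 := hom_eval₂ G C (algebraMap (MvPolynomial (Fin (n + 1)) ℤ)
      (Localization (Submonoid.powers f))) X
    rw [eval₂_eta] at h3
    rw [h3]
    congr 1
    exact RingHom.ext_int _ _
  rw [h2, map_pow, map_pow]
  obtain ⟨e, rfl⟩ : ∃ e, D = e + 1 := ⟨D - 1, by omega⟩
  rw [Nat.add_sub_cancel]
  ring

/-- monomials -/
theorem mono_pow (hf : f.IsHomogeneous D) (m : Fin (n + 1) →₀ ℕ) (hm : m.degree = D)
    (hmono : (monomial m (1 : ℤ)).IsHomogeneous D)
    (hX : ∀ j, (X j ^ D : MvPolynomial (Fin (n + 1)) ℤ).IsHomogeneous D) :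
    m1 f hf (monomial m 1) hmono ^ D = ∏ j, m1 f hf (X j ^ D) (hX j) ^ m j := by
  apply HomogeneousLocalization.val_injective
  rw [← HomogeneousLocalization.algebraMap_apply, ← HomogeneousLocalization.algebraMap_apply,
    map_pow, map_prod]
  simp only [map_pow, HomogeneousLocalization.algebraMap_apply, val_m1]
  have h1 : (monomial m (1 : ℤ)) = ∏ j, X j ^ m j := by
    rw [monomial_eq, C_1, one_mul, Finsupp.prod_fintype]
    intro i
    rw [pow_zero]
  rw [h1, map_prod, mul_pow]
  simp only [mul_pow, prod_mul_distrib]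
  rw [prod_pow_eq_pow_sum, ← Finsupp.degree_eq_sum, hm, ← prod_pow]
  congr 1
  refine prod_congr rfl fun j _ => ?_
  rw [map_pow, ← pow_mul, ← pow_mul, mul_comm]

theorem m1_self (hf : f.IsHomogeneous D) : m1 f hf f hf = 1 := by
  apply HomogeneousLocalization.val_injective
  rw [val_m1, alg_w, HomogeneousLocalization.val_one]

theorem m1_sum (hf : f.IsHomogeneous D) (hmono : ∀ m : f.support, (monomial m.1 (1 : ℤ)).IsHomogeneous D) :
    (1 : HomogeneousLocalization.Away (homogeneousSubmodule (Fin (n + 1)) ℤ) f) =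
      ∑ m : f.support, ((f.coeff m.1 : ℤ) : HomogeneousLocalization.Away
        (homogeneousSubmodule (Fin (n + 1)) ℤ) f) * m1 f hf (monomial m.1 1) (hmono m) := by
  apply HomogeneousLocalization.val_injective
  rw [HomogeneousLocalization.val_one, ← HomogeneousLocalization.algebraMap_apply, map_sum]
  simp only [map_mul, HomogeneousLocalization.algebraMap_apply, val_m1,
    HomogeneousLocalization.val_intCast]
  have h1 := congrArg (algebraMap (MvPolynomial (Fin (n + 1)) ℤ)
    (Localization (Submonoid.powers f))) f.as_sum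
  rw [← alg_w f]
  refine (congrArg (· * w f) h1).trans ?_
  rw [map_sum, sum_mul, ← sum_coe_sort]
  refine sum_congr rfl fun m _ => ?_
  have h2 : monomial m.1 (f.coeff m.1) = ((f.coeff m.1 : ℤ) : MvPolynomial (Fin (n + 1)) ℤ) *
      monomial m.1 1 := by
    rw [← map_intCast (C : ℤ →+* MvPolynomial (Fin (n + 1)) ℤ), C_mul_monomial, mul_one]
    simp
  rw [h2, map_mul, map_intCast, mul_assoc]

theorem exists_ne_zero {S : Type*} [CommRing S] [IsDomain S] (hf : f.IsHomogeneous D) (hD : 1 ≤ D)
    (φ : HomogeneousLocalization.Away (homogeneousSubmodule (Fin (n + 1)) ℤ) f →+* S)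
    (hX : ∀ j, (X j ^ D : MvPolynomial (Fin (n + 1)) ℤ).IsHomogeneous D) :
    ∃ j, φ (m1 f hf (X j ^ D) (hX j)) ≠ 0 := by
  by_contra hcon
  push Not at hcon
  have hdeg : ∀ m : f.support, m.1.degree = D := fun m => by
    rw [Finsupp.degree_eq_weight_one]
    exact hf (mem_support_iff.mp m.2)
  have hmono : ∀ m : f.support, (monomial m.1 (1 : ℤ)).IsHomogeneous D := fun m =>
    isHomogeneous_monomial _ (hdeg m)
  have h1 : ∀ m : f.support, φ (m1 f hf (monomial m.1 1) (hmono m)) = 0 := by
    intro m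
    have h2 := congrArg φ (mono_pow f hf m.1 (hdeg m) (hmono m) hX)
    rw [map_pow, map_prod] at h2
    have h3 : ∃ j, m.1 j ≠ 0 := by
      by_contra h4
      push Not at h4
      have h5 := hdeg m
      rw [Finsupp.degree_eq_sum, sum_eq_zero (fun j _ => h4 j)] at h5
      omega
    obtain ⟨j, hj⟩ := h3
    have h6 : φ (m1 f hf (monomial m.1 1) (hmono m)) ^ D = 0 := by
      rw [h2]
      apply prod_eq_zero (mem_univ j)
      rw [map_pow, hcon j, zero_pow hj]
    exact pow_eq_zero_iff (by omega) |>.mp h6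
  have h7 := congrArg φ (m1_sum f hf hmono)
  rw [map_one, map_sum, sum_eq_zero] at h7
  · exact one_ne_zero h7
  · intro m _
    rw [map_mul, h1, mul_zero]

/-- A point of the complement of a hypersurface with values in a principal ideal domain has
homogeneous coordinates at which the equation is a unit. -/
theorem exists_coords {S : Type*} [CommRing S] [IsDomain S] [IsPrincipalIdealRing S]
    (hf : f.IsHomogeneous D) (hD : 1 ≤ D)
    (φ : HomogeneousLocalization.Away (homogeneousSubmodule (Fin (n + 1)) ℤ) f →+* S) :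
    ∃ x : Fin (n + 1) → S, IsUnit (eval₂ (Int.castRingHom S) x f) := by
  classical
  have hX : ∀ j, (X j ^ D : MvPolynomial (Fin (n + 1)) ℤ).IsHomogeneous D := fun j => by
    have := (isHomogeneous_X ℤ j).pow D
    rwa [one_mul] at this
  obtain ⟨j, hj⟩ := exists_ne_zero f hf hD φ hX
  have hY : ∀ k, (X k * X j ^ (D - 1) : MvPolynomial (Fin (n + 1)) ℤ).IsHomogeneous D := fun k => by
    have := (isHomogeneous_X ℤ k).mul ((isHomogeneous_X ℤ j).pow (D - 1))
    rwa [one_mul, show 1 + (D - 1) = D by omega] at this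
  set b := φ (m1 f hf (X j ^ D) (hX j)) with hb
  set y : Fin (n + 1) → S := fun k => φ (m1 f hf (X k * X j ^ (D - 1)) (hY k)) with hy
  -- values of forms
  have hval : ∀ G (hG : G.IsHomogeneous D), eval₂ (Int.castRingHom S) y G =
      φ (m1 f hf G hG) * b ^ (D - 1) := by
    intro G hG
    have h1 := congrArg φ (eval_Y f hf hD j G hG hY (hX j))
    rw [map_mul, map_pow, hom_eval₂] at h1
    rw [← h1]
    congr 1
    exact RingHom.ext_int _ _
  have hyj : y j = b := by
    show φ (m1 f hf (X j * X j ^ (D - 1)) (hY j)) = φ (m1 f hf (X j ^ D) (hX j))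
    congr 2
    rw [← pow_succ', show D - 1 + 1 = D by omega]
  -- the gcd of the coordinates
  obtain ⟨g, hg⟩ := (IsPrincipalIdealRing.principal (Ideal.span (Set.range y))).principal
  have hg' : Ideal.span (Set.range y) = Ideal.span {g} := hg
  have hg0 : g ≠ 0 := by
    rintro rfl
    have h1 : y j ∈ Ideal.span {(0 : S)} := hg' ▸ Ideal.subset_span ⟨j, rfl⟩
    rw [Ideal.mem_span_singleton, zero_dvd_iff, hyj] at h1
    exact hj h1
  have hdvd : ∀ k, g ∣ y k := fun k => by
    rw [← Ideal.mem_span_singleton, ← hg']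
    exact Ideal.subset_span ⟨k, rfl⟩
  choose x hx using hdvd
  have hspan : Ideal.span (Set.range x) = ⊤ := by
    have h1 : Ideal.span {g} * Ideal.span (Set.range x) = Ideal.span {g} * ⊤ := by
      rw [Ideal.mul_top]
      conv_rhs => rw [← hg']
      rw [Ideal.span_mul_span', Set.singleton_mul]
      congr 1
      ext s
      constructor
      · rintro ⟨_, ⟨k, rfl⟩, rfl⟩
        exact ⟨k, hx k⟩
      · rintro ⟨k, rfl⟩
        exact ⟨x k, ⟨k, rfl⟩, (hx k).symm⟩
    exact (Ideal.span_singleton_mul_right_inj hg0).mp h1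
  have hyx : ∀ G, G.IsHomogeneous D → eval₂ (Int.castRingHom S) y G =
      g ^ D * eval₂ (Int.castRingHom S) x G := by
    intro G hG
    rw [← eval₂_smul_point _ D G hG]
    congr 1
    funext k
    exact hx k
  -- `g ^ D` is a multiple of `b ^ (D - 1)`
  have hspan' : Ideal.span ((fun s : S => s ^ D) '' Set.range x) = ⊤ :=
    Ideal.span_pow_eq_top _ hspan D
  have hmem : g ^ D ∈ Ideal.span {b ^ (D - 1)} := by
    have h1 : Ideal.span {g ^ D} * Ideal.span ((fun s : S => s ^ D) '' Set.range x) ≤
        Ideal.span {b ^ (D - 1)} := by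
      rw [Ideal.span_mul_span', Set.singleton_mul, Ideal.span_le]
      rintro _ ⟨_, ⟨_, ⟨k, rfl⟩, rfl⟩, rfl⟩
      rw [SetLike.mem_coe, Ideal.mem_span_singleton]
      have h2 := (hyx _ (hX k)).symm.trans (hval _ (hX k))
      rw [eval₂_pow, eval₂_X] at h2
      exact ⟨φ (m1 f hf (X k ^ D) (hX k)), by rw [mul_comm]; exact h2.trans rfl⟩
    rw [hspan', Ideal.mul_top] at h1
    exact h1 (Ideal.mem_span_singleton_self _)
  rw [Ideal.mem_span_singleton] at hmem
  obtain ⟨t, ht⟩ := hmem
  refine ⟨x, ?_⟩
  have h3 := (hyx f hf).symm.trans (hval f hf)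
  rw [m1_self, map_one, one_mul, ht] at h3
  have hb0 : b ^ (D - 1) ≠ 0 := pow_ne_zero _ hj
  have h4 : t * eval₂ (Int.castRingHom S) x f = 1 := by
    apply mul_left_cancel₀ hb0
    rw [mul_one, ← mul_assoc]
    exact h3
  exact IsUnit.of_mul_eq_one t (by rw [mul_comm]; exact h4)

end away

end Pool.Agent.Helper6.RH
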