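import Pool.Agent.Helper6.RH.Defs
import Pool.Agent.Helper6.RH.Count3
import Pool.Agent.Helper6.RH.Points
import Pool.Agent.Helper8.DenseLVSieve

/-!
The sieve.
-/

namespace Pool.Agent.Helper6.RH

open Finset MvPolynomial

section vectors
variable {n k : ℕ} (d : Fin k → ℕ)

/-- index set of all coefficients -/
abbrev Idx (n : ℕ) {k : ℕ} (d : Fin k → ℕ) : Type := (i : Fin k) × Mon n (d i)

/-- The vector of all coefficients. -/
def toVec (F : Fin k → MvPolynomial (Fin (n + 1)) ℤ) : Idx n d → ℤ := fun p => (F p.1).coeff p.2.1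

theorem toVec_injOn (H : ℕ) : Set.InjOn (toVec (n := n) d) (Box n d H) := by
  intro F hF G hG h
  funext i
  ext m
  by_cases hm : m.degree = d i
  · exact congrFun h ⟨i, ⟨m, mem_mon m hm⟩⟩
  · rw [(hF i).1.coeff_eq_zero hm, (hG i).1.coeff_eq_zero hm]

theorem toVec_image (H : ℕ) : toVec (n := n) d '' Box n d H =
    (Pool.Agent.Helper8.DenseLV.box (Idx n d) H : Set (Idx n d → ℤ)) := by
  classical
  ext c
  rw [Finset.mem_coe]
  unfold Pool.Agent.Helper8.DenseLV.box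
  rw [Fintype.mem_piFinset]
  constructor
  · rintro ⟨F, hF, rfl⟩ p
    rw [mem_Icc, ← abs_le]
    exact (hF p.1).2 _
  · intro hc
    have hcoeff : ∀ (i : Fin k) (m : Fin (n + 1) →₀ ℕ),
        (∑ m' : Mon n (d i), monomial m'.1 (c ⟨i, m'⟩) : MvPolynomial (Fin (n + 1)) ℤ).coeff m =
          if hm : m ∈ (univ : Finset (Fin (n + 1))).finsuppAntidiag (d i) then c ⟨i, ⟨m, hm⟩⟩
          else 0 := by
      intro i m
      rw [coeff_sum]
      simp only [coeff_monomial]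
      split_ifs with hm
      · rw [Finset.sum_eq_single ⟨m, hm⟩]
        · rw [if_pos rfl]
        · intro m' _ hm'
          rw [if_neg]
          intro h
          exact hm' (Subtype.ext h)
        · intro h
          exact absurd (mem_univ _) h
      · apply sum_eq_zero
        intro m' _
        rw [if_neg]
        rintro rfl
        exact hm m'.2
    refine ⟨fun i => ∑ m' : Mon n (d i), monomial m'.1 (c ⟨i, m'⟩), ?_, ?_⟩
    · intro i
      refine ⟨?_, fun m => ?_⟩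
      · apply IsHomogeneous.sum
        intro m' _
        exact isHomogeneous_monomial _ m'.degree_eq
      · rw [hcoeff]
        split_ifs with hm
        · have := hc ⟨i, ⟨m, hm⟩⟩
          rwa [mem_Icc, ← abs_le] at this
        · simp
    · funext p
      unfold toVec
      rw [hcoeff, dif_pos p.2.2]

theorem ncard_Box (H : ℕ) : (Box n d H).ncard = (2 * H + 1) ^ Fintype.card (Idx n d) := by
  rw [← (toVec_injOn d H).ncard_image, toVec_image, Set.ncard_coe_finset,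
    Pool.Agent.Helper8.DenseLV.card_box]

end vectors

/-- reduction of the value of a form at a point -/
theorem ev_reduce {n d r : ℕ} {S : Type*} [CommRing S] (ψ : S →+* ZMod r)
    (F : MvPolynomial (Fin (n + 1)) ℤ) (hF : F.IsHomogeneous d) (x : Fin (n + 1) → S) :
    ev (fun m : Mon n d => ((F.coeff m.1 : ℤ) : ZMod r)) (fun j => ψ (x j)) =
      ψ (eval₂ (Int.castRingHom S) x F) := by
  have h1 := ev_vec (F.map (Int.castRingHom (ZMod r))) (hF.map _) (fun j => ψ (x j))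
  have h2 : vec (F.map (Int.castRingHom (ZMod r))) d =
      (fun m : Mon n d => ((F.coeff m.1 : ℤ) : ZMod r)) := by
    funext m
    unfold vec
    rw [coeff_map]
    rfl
  rw [h2] at h1
  rw [h1, eval_map, hom_eval₂]
  congr 1
  exact RingHom.ext_int _ _

theorem count_mod {n k : ℕ} (hn : 1 ≤ n) (hk : n + 1 ≤ k) (d : Fin k → ℕ) (hd : ∀ i, 1 ≤ d i)
    (hsum : n + 2 ≤ ∑ i, d i) (r : ℕ) [Fact r.Prime] (hr : 5 ≤ r) (u : Fin k → (ZMod r)ˣ) :
    ∃ SS : Finset (Idx n d → ZMod r),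
      (∀ c : Idx n d → ZMod r, (∃ x : Fin (n + 1) → ZMod r, x ≠ 0 ∧
        ∀ i, ev (fun m => c ⟨i, m⟩) x = u i) → c ∈ SS) ∧
      (SS.card : ℝ) ≤ (1 - 1 / (2 * ((8 + 8 * ∑ i, d i : ℕ) : ℝ))) *
        (r : ℝ) ^ Fintype.card (Idx n d) := by
  have hcard : Fintype.card (Tup (ZMod r) n d) = r ^ Fintype.card (Idx n d) := by
    have e := Fintype.card_congr (Equiv.piCurry (fun (i : Fin k) (_ : Mon n (d i)) => ZMod r))
    rw [← e, Fintype.card_fun, ZMod.card]
  have hu : ∀ i, ((u i : (ZMod r)ˣ) : ZMod r) ≠ 0 := fun i => Units.ne_zero _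
  have hr' : (r : ℝ) ^ Fintype.card (Idx n d) = (Fintype.card (Tup (ZMod r) n d) : ℕ) := by
    rw [hcard]
    push_cast
    rfl
  obtain ⟨SS, hSS, hbound⟩ : ∃ SS : Finset (Tup (ZMod r) n d), (∀ c, (∃ x, x ≠ 0 ∧
      ∀ i, ev (c i) x = ((u i : (ZMod r)ˣ) : ZMod r)) → c ∈ SS) ∧
      (SS.card : ℝ) ≤ (1 - 1 / (2 * ((8 + 8 * ∑ i, d i : ℕ) : ℝ))) *
        (r : ℝ) ^ Fintype.card (Idx n d) := by
    rw [hr']
    rcases Nat.lt_or_ge (n + 1) k with hlt | hge
    · obtain ⟨SS, hSS, h1⟩ := few_ex' (F := ZMod r) (n := n) d (by rw [Fintype.card_fin]; omega)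
        (fun i => ((u i : (ZMod r)ˣ) : ZMod r))
      refine ⟨SS, hSS, ?_⟩
      rw [ZMod.card] at h1
      refine h1.trans (mul_le_mul_of_nonneg_right ?_ (Nat.cast_nonneg _))
      have h2 : (1 : ℝ) / r ≤ 1 / 5 := by
        apply one_div_le_one_div_of_le (by norm_num)
        exact_mod_cast hr
      have h3 : (1 : ℝ) / (2 * ((8 + 8 * ∑ i, d i : ℕ) : ℝ)) ≤ 1 / 16 := by
        apply one_div_le_one_div_of_le (by norm_num)
        have : (8 : ℝ) ≤ ((8 + 8 * ∑ i, d i : ℕ) : ℝ) := by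
          exact_mod_cast Nat.le_add_right 8 _
        linarith
      linarith
    · have hkn : k = n + 1 := by omega
      obtain ⟨i0, h0⟩ : ∃ i0, 2 ≤ d i0 := by
        by_contra hcon
        push Not at hcon
        have h1 : ∑ i, d i ≤ ∑ _i : Fin k, 1 := sum_le_sum fun i _ => by have := hcon i; omega
        rw [sum_const, card_univ, Fintype.card_fin, smul_eq_mul, mul_one] at h1
        omega
      obtain ⟨i1, h01⟩ : ∃ i1, i0 ≠ i1 := by
        by_contra hcon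
        push Not at hcon
        have h1 : Fintype.card (Fin k) ≤ 1 := Fintype.card_le_one_iff.mpr fun a b =>
          (hcon a).symm.trans (hcon b)
        rw [Fintype.card_fin] at h1
        omega
      obtain ⟨SS, hSS, h1⟩ := few_ex (F := ZMod r) (n := n) d hn hd
        (by rw [Fintype.card_fin, hkn])
        (by rw [ZMod.card]; exact hr) (fun i => ((u i : (ZMod r)ˣ) : ZMod r)) hu i0 i1 h01 h0
      refine ⟨SS, hSS, ?_⟩
      refine h1.trans (mul_le_mul_of_nonneg_right ?_ (Nat.cast_nonneg _))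
      have h2 : (d i0 : ℝ) ≤ ((∑ i, d i : ℕ) : ℝ) := by
        exact_mod_cast single_le_sum (f := d) (fun _ _ => Nat.zero_le _) (mem_univ i0)
      have h3 : (1 : ℝ) / (2 * ((8 + 8 * ∑ i, d i : ℕ) : ℝ)) ≤ 1 / (2 * (8 + 8 * (d i0 : ℝ))) := by
        apply one_div_le_one_div_of_le (by positivity)
        push_cast at h2 ⊢
        linarith
      linarith
  refine ⟨SS.map (Equiv.piCurry (fun (i : Fin k) (_ : Mon n (d i)) => ZMod r)).symm.toEmbedding,
    ?_, by rw [card_map]; exact hbound⟩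
  intro c hc
  rw [mem_map]
  exact ⟨fun i m => c ⟨i, m⟩, hSS _ hc, rfl⟩

/-- translates of the count modulo `r` -/
theorem count_mod' {n k : ℕ} (hn : 1 ≤ n) (hk : n + 1 ≤ k) (d : Fin k → ℕ) (hd : ∀ i, 1 ≤ d i)
    (hsum : n + 2 ≤ ∑ i, d i) (r : ℕ) [Fact r.Prime] (hr : 5 ≤ r) (u : Fin k → (ZMod r)ˣ)
    (b : Idx n d → ZMod r) :
    ∃ SS : Finset (Idx n d → ZMod r),
      (∀ c : Idx n d → ZMod r, (∃ x : Fin (n + 1) → ZMod r, x ≠ 0 ∧
        ∀ i, ev (fun m => b ⟨i, m⟩ + c ⟨i, m⟩) x = u i) → c ∈ SS) ∧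
      (SS.card : ℝ) ≤ (1 - 1 / (2 * ((8 + 8 * ∑ i, d i : ℕ) : ℝ))) *
        (r : ℝ) ^ Fintype.card (Idx n d) := by
  obtain ⟨SS, hSS, hcard⟩ := count_mod hn hk d hd hsum r hr u
  refine ⟨SS.map (Equiv.addLeft (-b)).toEmbedding, fun c hc => ?_, by rw [card_map]; exact hcard⟩
  rw [mem_map]
  refine ⟨b + c, hSS _ hc, ?_⟩
  show -b + (b + c) = c
  rw [neg_add_cancel_left]

/-- the forms with a point over a ring `S` -/
theorem main_of (S : Type) [CommRing S] (hG : Group.FG Sˣ) (P : Set ℕ)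
    (hP : ∀ r ∈ P, r.Prime ∧ 5 ≤ r ∧ Nonempty (S →+* ZMod r))
    (hprimes : ∀ C : ℝ, ∃ (M : ℕ) (T : Finset ℕ), 0 < M ∧ (∀ r ∈ T, r ∈ P ∧ (r - 1) ∣ M) ∧
      C * (1 + Real.log M) ≤ T.card)
    (n k : ℕ) (hn : 1 ≤ n) (hk : n + 1 ≤ k) (d : Fin k → ℕ) (hd : ∀ i, 1 ≤ d i)
    (hsum : n + 2 ≤ ∑ i, d i) (ε : ℝ) (hε : 0 < ε) :
    ∃ H₀ : ℕ, ∀ H : ℕ, H₀ ≤ H → ∀ Φ : Fin k → MvPolynomial (Fin (n + 1)) ℤ,
      (∀ i, (Φ i).IsHomogeneous (d i)) →
      (({F ∈ Box n d H | ∃ x : Fin (n + 1) → S,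
        ∀ i, IsUnit (eval₂ (Int.castRingHom S) x (Φ i + F i))}.ncard : ℕ) : ℝ) ≤
        ε * (Box n d H).ncard := by
  classical
  obtain ⟨g, f, hf⟩ : ∃ (g : ℕ) (f : (Fin g → ℤ) →+ Additive Sˣ), Function.Surjective f := by
    have : Module.Finite ℤ (Additive Sˣ) :=
      Module.Finite.iff_addGroup_fg.mpr (GroupFG.iff_add_fg.mp hG)
    obtain ⟨g, f, hf⟩ := Module.Finite.exists_fin' ℤ (Additive Sˣ)
    exact ⟨g, f.toAddMonoidHom, hf⟩
  set K := Fintype.card (Idx n d) with hK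
  set m := 8 + 8 * ∑ i, d i with hm
  have hm2 : 2 ≤ m := by omega
  obtain ⟨M, T, hM, hT, hbound⟩ := Pool.Agent.Helper8.DenseLV.choose_const m k g K hm2 ε hε
    (fun M T => ∀ r ∈ T, r ∈ P ∧ (r - 1) ∣ M) hprimes
  refine ⟨∏ r ∈ T, r, fun H hH Φ hΦ => ?_⟩
  have hTp : ∀ r ∈ T, r.Prime ∧ (r - 1) ∣ M := fun r hr => ⟨(hP r (hT r hr).1).1, (hT r hr).2⟩
  have hex : ∀ r ∈ T, ∃ _ : S →+* ZMod r, True := fun r hr => by
    obtain ⟨ψ⟩ := (hP r (hT r hr).1).2.2
    exact ⟨ψ, trivial⟩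
  choose ψ _ using hex
  let Good : ∀ r ∈ T, (Fin k → Sˣ) → (Idx n d → ZMod r) → Prop := fun r hr w c =>
    ∃ x : Fin (n + 1) → ZMod r, x ≠ 0 ∧
      ∀ i, ev (fun m => ((toVec d Φ ⟨i, m⟩ : ℤ) : ZMod r) + c ⟨i, m⟩) x =
      ((Units.map (ψ r hr).toMonoidHom (w i) : (ZMod r)ˣ) : ZMod r)
  have hm' : (2 : ℝ) ≤ m := by exact_mod_cast hm2
  have hθ0 : (0 : ℝ) ≤ 1 - 1 / (2 * m) := by
    rw [sub_nonneg, div_le_one (by positivity)]
    linarith
  have hsieve := Pool.Agent.Helper8.DenseLV.sieve_bound f hf M hM T hTp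
    (fun w : Fin k → Sˣ => w) (fun r hr => Units.map (ψ r hr).toMonoidHom) Good
    (by
      rintro r hr w w' hww c ⟨x, hx, hx'⟩
      exact ⟨x, hx, fun i => by rw [hx' i, hww i]⟩) (1 - 1 / (2 * m)) hθ0
    (by
      intro r hr w
      have : Fact r.Prime := ⟨(hTp r hr).1⟩
      exact count_mod' hn hk d hd hsum r (hP r (hT r hr).1).2.1
        (fun i => Units.map (ψ r hr).toMonoidHom (w i))
        (fun p => ((toVec d Φ p : ℤ) : ZMod r))) H (by omega)
  set A := {F ∈ Box n d H | ∃ x : Fin (n + 1) → S,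
        ∀ i, IsUnit (eval₂ (Int.castRingHom S) x (Φ i + F i))} with hA
  set S' := (Pool.Agent.Helper8.DenseLV.box (Idx n d) H).filter fun c =>
    ∃ w : Fin k → Sˣ, ∀ r (hr : r ∈ T), Good r hr w fun i => (c i : ZMod r) with hS'
  have hle : A.ncard ≤ S'.card := by
    rw [← Set.ncard_coe_finset]
    refine Set.ncard_le_ncard_of_injOn (toVec d) ?_ ?_ (Finset.finite_toSet _)
    · rintro F ⟨hF, x, hx⟩
      rw [mem_coe, mem_filter]
      refine ⟨?_, ?_⟩
      · have : toVec d F ∈ toVec (n := n) d '' Box n d H := ⟨F, hF, rfl⟩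
        rw [toVec_image] at this
        exact this
      · refine ⟨fun i => (hx i).unit, fun r hr => ?_⟩
        have : Fact r.Prime := ⟨(hTp r hr).1⟩
        have hred : ∀ i, ev (fun m : Mon n (d i) =>
            ((toVec d Φ ⟨i, m⟩ : ℤ) : ZMod r) + (((F i).coeff m.1 : ℤ) : ZMod r))
            (fun j => ψ r hr (x j)) = ψ r hr (eval₂ (Int.castRingHom S) x (Φ i + F i)) := by
          intro i
          rw [← ev_reduce (ψ r hr) (Φ i + F i) ((hΦ i).add (hF i).1) x]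
          congr 1
          funext m
          rw [coeff_add]
          push_cast
          rfl
        refine ⟨fun j => ψ r hr (x j), ?_, hred⟩
        intro h0
        have h1 := hred ⟨0, by omega⟩
        rw [h0, ev_zero_right (hd _)] at h1
        exact ((hx ⟨0, by omega⟩).map (ψ r hr)).ne_zero h1.symm
    · exact (toVec_injOn d H).mono fun F hF => hF.1
  rw [ncard_Box]
  calc (A.ncard : ℝ) ≤ S'.card := by exact_mod_cast hle
    _ ≤ _ := hsieve
    _ = (2 ^ K * ((M : ℝ) ^ (k * g) * (1 - 1 / (2 * m)) ^ T.card)) * (2 * H + 1) ^ K := by ring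
    _ ≤ ε * (2 * H + 1) ^ K := by gcongr
    _ = _ := by push_cast; rfl

end Pool.Agent.Helper6.RH
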