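import Pool.Agent.Helper6.RH.Forms

/-!
For `n + 1` forms, not all of degree one, in `n + 1` variables over a finite field and given nonzero
values, a positive proportion of the forms does not take these values simultaneously.
-/

namespace Pool.Agent.Helper6.RH

open Finset

section step
variable {F V : Type*} [Field F] [Fintype F] [AddCommGroup V] [Module F V] [DecidableEq V]
  [DecidableEq F]

omit [DecidableEq V] in
theorem step (A : Finset V) (Q : V) (l : V →ₗ[F] F) (hQ : l Q ≠ 0)
    (hA : ∀ v ∈ A, ∀ t : F, v + t • Q ∈ A) (u : F) :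
    (A.filter fun v => l v = u).card * Fintype.card F = A.card := by
  rw [← Finset.card_univ, ← card_product]
  refine card_bij' (fun p _ => p.1 + p.2 • Q)
    (fun v _ => (v - ((l v - u) / l Q) • Q, (l v - u) / l Q)) ?_ ?_ ?_ ?_
  · rintro ⟨v, t⟩ hp
    rw [mem_product, mem_filter] at hp
    exact hA v hp.1.1 t
  · intro v hv
    rw [mem_product, mem_filter]
    refine ⟨⟨?_, ?_⟩, mem_univ _⟩
    · have := hA v hv (-((l v - u) / l Q))
      rwa [neg_smul, ← sub_eq_add_neg] at this
    · show l (v - ((l v - u) / l Q) • Q) = u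
      rw [map_sub, map_smul, smul_eq_mul, div_mul_cancel₀ _ hQ, sub_sub_cancel]
  · rintro ⟨v, t⟩ hp
    rw [mem_product, mem_filter] at hp
    have h1 : (l (v + t • Q) - u) / l Q = t := by
      rw [map_add, map_smul, smul_eq_mul, (hp.1.2 : l v = u), add_sub_cancel_left,
        mul_div_cancel_right₀ _ hQ]
    simp only [h1, add_sub_cancel_right]
  · intro v _
    show v - ((l v - u) / l Q) • Q + ((l v - u) / l Q) • Q = v
    rw [sub_add_cancel]

end step

section main
variable {F : Type*} [Field F] [Fintype F] [DecidableEq F] {n : ℕ} {ι : Type*} [Fintype ι]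
  [DecidableEq ι] (d : ι → ℕ)

/-- Tuples of forms. -/
abbrev Tup (F : Type*) (n : ℕ) {ι : Type*} (d : ι → ℕ) : Type _ := ∀ i : ι, Mon n (d i) → F

/-- The value of the `i`-th form at `z`. -/
def evl (i : ι) (z : Fin (n + 1) → F) : Tup F n d →ₗ[F] F where
  toFun c := ev (c i) z
  map_add' _ _ := ev_add _ _ _
  map_smul' _ _ := ev_smul _ _ _

theorem impose (A : Finset (Tup F n d)) (z : Fin (n + 1) → F) (u : ι → F) (J : Finset ι)
    (Q : Tup F n d) (hQ : ∀ i ∈ J, ev (Q i) z ≠ 0)
    (hA : ∀ c ∈ A, ∀ i ∈ J, ∀ t : F, c + t • (Pi.single i (Q i) : Tup F n d) ∈ A) :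
    (A.filter fun c => ∀ i ∈ J, ev (c i) z = u i).card * Fintype.card F ^ J.card = A.card := by
  induction J using Finset.induction_on with
  | empty => simp
  | insert i J hi ih =>
    have ih' := ih (fun j hj => hQ j (mem_insert_of_mem hj))
      (fun c hc j hj t => hA c hc j (mem_insert_of_mem hj) t)
    have h1 : (A.filter fun c => ∀ j ∈ insert i J, ev (c j) z = u j) =
        (A.filter fun c => ∀ j ∈ J, ev (c j) z = u j).filter fun c => evl d i z c = u i := by
      rw [filter_filter]
      refine filter_congr fun c _ => ?_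
      rw [forall_mem_insert]
      exact and_comm
    have h2 := step (A.filter fun c => ∀ j ∈ J, ev (c j) z = u j)
      (Pi.single i (Q i) : Tup F n d) (evl d i z)
      (by
        show ev ((Pi.single i (Q i) : Tup F n d) i) z ≠ 0
        rw [Pi.single_eq_same]
        exact hQ i (mem_insert_self _ _))
      (by
        intro c hc t
        rw [mem_filter] at hc ⊢
        refine ⟨hA c hc.1 i (mem_insert_self _ _) t, fun j hj => ?_⟩
        have hji : j ≠ i := fun h => hi (h ▸ hj)
        have : (c + t • (Pi.single i (Q i) : Tup F n d)) j = c j := by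
          rw [Pi.add_apply, Pi.smul_apply, Pi.single_eq_of_ne hji, smul_zero, add_zero]
        rw [this]
        exact hc.2 j hj) (u i)
    rw [h1, card_insert_of_notMem hi, pow_succ', ← mul_assoc, h2]
    exact ih'

/-- The tuples with values `u` at `x`. -/
def A1 (u : ι → F) (x : Fin (n + 1) → F) : Finset (Tup F n d) :=
  univ.filter fun c => ∀ i, ev (c i) x = u i

/-- The tuples with values `u` at `x` and `y`. -/
def A2 (u : ι → F) (x y : Fin (n + 1) → F) : Finset (Tup F n d) :=
  univ.filter fun c => (∀ i, ev (c i) x = u i) ∧ ∀ i, ev (c i) y = u i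


theorem impose_all (A : Finset (Tup F n d)) (z : Fin (n + 1) → F) (u : ι → F)
    (Q : Tup F n d) (hQ : ∀ i, ev (Q i) z ≠ 0)
    (hA : ∀ c ∈ A, ∀ i, ∀ t : F, c + t • (Pi.single i (Q i) : Tup F n d) ∈ A) :
    (A.filter fun c => ∀ i, ev (c i) z = u i).card * Fintype.card F ^ Fintype.card ι = A.card := by
  have := impose d A z u univ Q (fun i _ => hQ i) (fun c hc i _ t => hA c hc i t)
  simpa using this

theorem card_A1 (u : ι → F) (x : Fin (n + 1) → F) (hx : x ≠ 0) :
    (A1 d u x).card * Fintype.card F ^ Fintype.card ι = Fintype.card (Tup F n d) := by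
  have h0 : x ∉ (⊥ : Submodule F (Fin (n + 1) → F)) := by simpa using hx
  obtain ⟨γ, hγ, -⟩ := exists_dual ⊥ x h0
  have hQ : ∀ i, ∃ c : Mon n (d i) → F, ∀ x, ev c x = γ x ^ (d i) * γ x ^ 0 := fun i =>
    exists_vec γ γ (d i) 0 (d i) (by omega)
  choose Q hQ using hQ
  refine impose_all d univ x u Q (fun i => ?_) (fun c _ i t => mem_univ _)
  rw [hQ, hγ]
  simp

/-- translation of a tuple in one component -/
theorem ev_translate (c Q : Tup F n d) (i j : ι) (t : F) (x : Fin (n + 1) → F)
    (h : i = j → ev (Q i) x = 0) :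
    ev ((c + t • (Pi.single i (Q i) : Tup F n d)) j) x = ev (c j) x := by
  rw [Pi.add_apply, Pi.smul_apply, ev_add, ev_smul]
  by_cases hij : i = j
  · subst hij
    rw [Pi.single_eq_same, h rfl, mul_zero, add_zero]
  · rw [Pi.single_eq_of_ne (Ne.symm hij)]
    have : ev (0 : Mon n (d j) → F) x = 0 := by
      unfold ev
      simp
    rw [this, mul_zero, add_zero]

theorem mem_A2_translate (u : ι → F) (x y : Fin (n + 1) → F) (c Q : Tup F n d)
    (hc : c ∈ A2 d u x y) (i : ι) (t : F) (hx : ev (Q i) x = 0) (hy : ev (Q i) y = 0) :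
    c + t • (Pi.single i (Q i) : Tup F n d) ∈ A2 d u x y := by
  unfold A2 at hc ⊢
  rw [mem_filter] at hc ⊢
  refine ⟨mem_univ _, fun j => ?_, fun j => ?_⟩
  · rw [ev_translate d c Q i j t x (fun _ => hx)]
    exact hc.2.1 j
  · rw [ev_translate d c Q i j t y (fun _ => hy)]
    exact hc.2.2 j

/-- a dual basis -/
theorem exists_dual_pair (x y : Fin (n + 1) → F) (hx : x ≠ 0) (hxy : ∀ t : F, y ≠ t • x) :
    ∃ α β : Module.Dual F (Fin (n + 1) → F), α x = 1 ∧ α y = 0 ∧ β x = 0 ∧ β y = 1 := by
  have h1 : y ∉ Submodule.span F {x} := by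
    rw [Submodule.mem_span_singleton]
    rintro ⟨t, ht⟩
    exact hxy t ht.symm
  have h2 : x ∉ Submodule.span F {y} := by
    rw [Submodule.mem_span_singleton]
    rintro ⟨t, ht⟩
    have ht0 : t ≠ 0 := by
      rintro rfl
      rw [zero_smul] at ht
      exact hx ht.symm
    apply hxy t⁻¹
    rw [← ht, smul_smul, inv_mul_cancel₀ ht0, one_smul]
  obtain ⟨β, hβ, hβ'⟩ := exists_dual _ y h1
  obtain ⟨α, hα, hα'⟩ := exists_dual _ x h2
  exact ⟨α, β, hα, hα' y (Submodule.mem_span_singleton_self y),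
    hβ' x (Submodule.mem_span_singleton_self x), hβ⟩

theorem card_A2 (hd : ∀ i, 1 ≤ d i) (u : ι → F) (x y : Fin (n + 1) → F) (hx : x ≠ 0)
    (hxy : ∀ t : F, y ≠ t • x) :
    (A2 d u x y).card * Fintype.card F ^ Fintype.card ι = (A1 d u x).card := by
  obtain ⟨α, β, hαx, hαy, hβx, hβy⟩ := exists_dual_pair x y hx hxy
  have hQ : ∀ i, ∃ c : Mon n (d i) → F, ∀ x, ev c x = β x ^ (d i) * β x ^ 0 := fun i =>
    exists_vec β β (d i) 0 (d i) (by omega)
  choose Q hQ using hQ
  have h1 : A2 d u x y = (A1 d u x).filter fun c => ∀ i, ev (c i) y = u i := by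
    unfold A1 A2
    rw [filter_filter]
  rw [h1]
  refine impose_all d _ y u Q (fun i => ?_) (fun c hc i t => ?_)
  · rw [hQ, hβy]
    simp
  · unfold A1 at hc ⊢
    rw [mem_filter] at hc ⊢
    refine ⟨mem_univ _, fun j => ?_⟩
    rw [ev_translate d c Q i j t x (fun _ => ?_)]
    · exact hc.2 j
    · rw [hQ, hβx, zero_pow (by have := hd i; omega), zero_mul]

/-- the third point outside the plane of the first two -/
theorem card_A3_out (hd : ∀ i, 1 ≤ d i) (u : ι → F) (x y z : Fin (n + 1) → F)
    (hz : z ∉ Submodule.span F {x, y}) :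
    ((A2 d u x y).filter fun c => ∀ i, ev (c i) z = u i).card * Fintype.card F ^ Fintype.card ι =
      (A2 d u x y).card := by
  obtain ⟨γ, hγ, hγ'⟩ := exists_dual _ z hz
  have hγx : γ x = 0 := hγ' x (Submodule.subset_span (by simp))
  have hγy : γ y = 0 := hγ' y (Submodule.subset_span (by simp))
  have hQ : ∀ i, ∃ c : Mon n (d i) → F, ∀ x, ev c x = γ x ^ (d i) * γ x ^ 0 := fun i =>
    exists_vec γ γ (d i) 0 (d i) (by omega)
  choose Q hQ using hQ
  refine impose_all d _ z u Q (fun i => ?_) (fun c hc i t => ?_)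
  · rw [hQ, hγ]
    simp
  · refine mem_A2_translate d u x y c Q hc i t ?_ ?_
    · rw [hQ, hγx, zero_pow (by have := hd i; omega), zero_mul]
    · rw [hQ, hγy, zero_pow (by have := hd i; omega), zero_mul]

/-- the third point in the plane of the first two, off the axes -/
theorem card_A3_in (u : ι → F) (x y : Fin (n + 1) → F) (hx : x ≠ 0)
    (hxy : ∀ t : F, y ≠ t • x) (a b : F) (ha : a ≠ 0) (hb : b ≠ 0) (J : Finset ι)
    (hJ : ∀ i ∈ J, 2 ≤ d i) :
    ((A2 d u x y).filter fun c => ∀ i ∈ J, ev (c i) (a • x + b • y) = u i).card *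
      Fintype.card F ^ J.card = (A2 d u x y).card := by
  obtain ⟨α, β, hαx, hαy, hβx, hβy⟩ := exists_dual_pair x y hx hxy
  have hQ : ∀ i, ∃ c : Mon n (d i) → F, i ∈ J →
      ∀ x, ev c x = α x ^ (d i - 1) * β x ^ 1 := fun i => by
    by_cases hi : i ∈ J
    · obtain ⟨c, hc⟩ := exists_vec α β (d i - 1) 1 (d i) (by have := hJ i hi; omega)
      exact ⟨c, fun _ => hc⟩
    · exact ⟨0, fun h => absurd h hi⟩
  choose Q hQ using hQ
  have hαz : α (a • x + b • y) = a := by
    rw [map_add, map_smul, map_smul, hαx, hαy]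
    simp
  have hβz : β (a • x + b • y) = b := by
    rw [map_add, map_smul, map_smul, hβx, hβy]
    simp
  refine impose d _ _ u J Q (fun i hi => ?_) (fun c hc i hi t => ?_)
  · rw [hQ i hi, hαz, hβz]
    exact mul_ne_zero (pow_ne_zero _ ha) (pow_ne_zero _ hb)
  · refine mem_A2_translate d u x y c Q hc i t ?_ ?_
    · rw [hQ i hi, hβx]
      simp
    · rw [hQ i hi, hαy, zero_pow (by have := hJ i hi; omega), zero_mul]

end main

end Pool.Agent.Helper6.RH
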