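import Pool.Agent.Helper6.RH.Count

/-!
The sum over the third point.
-/

namespace Pool.Agent.Helper6.RH

open Finset

theorem sum_le_of {Z : Type*} (S : Finset Z) (f : Z → ℕ) (K A B : ℕ) (hK : 0 < K)
    (h : ∀ z ∈ S, f z * K ≤ A) (hc : (S.filter fun z => f z ≠ 0).card ≤ B * K) :
    ∑ z ∈ S, f z ≤ B * A := by
  have h1 : ∑ z ∈ S, f z = ∑ z ∈ S.filter (fun z => f z ≠ 0), f z := by
    rw [sum_filter_ne_zero]
  refine Nat.le_of_mul_le_mul_right ?_ hK
  rw [h1, sum_mul]
  calc ∑ z ∈ S.filter (fun z => f z ≠ 0), f z * K ≤ ∑ _z ∈ S.filter (fun z => f z ≠ 0), A :=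
        sum_le_sum fun z hz => h z (mem_of_mem_filter z hz)
    _ = (S.filter fun z => f z ≠ 0).card * A := by rw [sum_const, smul_eq_mul]
    _ ≤ B * K * A := Nat.mul_le_mul_right _ hc
    _ = B * A * K := by ring

theorem card_pow_eq_one {F : Type*} [Field F] [Fintype F] [DecidableEq F] (d : ℕ) (hd : 1 ≤ d) :
    (univ.filter fun a : F => a ^ d = 1).card ≤ d := by
  classical
  have h1 : (univ.filter fun a : F => a ^ d = 1) ⊆ (Polynomial.nthRoots d (1 : F)).toFinset := by
    intro a ha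
    rw [mem_filter] at ha
    rw [Multiset.mem_toFinset, Polynomial.mem_nthRoots (by omega)]
    exact ha.2
  exact (card_le_card h1).trans ((Multiset.toFinset_card_le _).trans (Polynomial.card_nthRoots d 1))

section main
variable {F : Type*} [Field F] [Fintype F] [DecidableEq F] {n : ℕ} {ι : Type*} [Fintype ι]
  [DecidableEq ι] (d : ι → ℕ)

/-- number of tuples with values `u` at three points -/
def f3 (u : ι → F) (x y z : Fin (n + 1) → F) : ℕ :=
  ((A2 d u x y).filter fun c => ∀ i, ev (c i) z = u i).card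

theorem f3_ne_zero {u : ι → F} {x y z : Fin (n + 1) → F} (h : f3 d u x y z ≠ 0) :
    ∃ c : Tup F n d, ∀ i, ev (c i) x = u i ∧ ev (c i) y = u i ∧ ev (c i) z = u i := by
  unfold f3 at h
  obtain ⟨c, hc⟩ := Finset.card_pos.mp (Nat.pos_of_ne_zero h)
  rw [mem_filter] at hc
  have h1 := hc.1
  unfold A2 at h1
  rw [mem_filter] at h1
  exact ⟨c, fun i => ⟨h1.2.1 i, h1.2.2 i, hc.2 i⟩⟩

theorem f3_le (u : ι → F) (x y z : Fin (n + 1) → F) : f3 d u x y z ≤ (A2 d u x y).card :=
  card_le_card (filter_subset _ _)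

theorem sum_out (hd : ∀ i, 1 ≤ d i) (hι : Fintype.card ι = n + 1) (u : ι → F)
    (x y : Fin (n + 1) → F) (S : Finset (Fin (n + 1) → F))
    (hS : ∀ z ∈ S, z ∉ Submodule.span F {x, y}) :
    ∑ z ∈ S, f3 d u x y z ≤ 1 * (A2 d u x y).card := by
  refine sum_le_of S _ (Fintype.card F ^ (n + 1)) _ 1 (by positivity) (fun z hz => ?_) ?_
  · have := card_A3_out d hd u x y z (hS z hz)
    rw [hι] at this
    exact this.le
  · rw [one_mul]
    calc _ ≤ (univ : Finset (Fin (n + 1) → F)).card := card_le_card (subset_univ _)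
      _ = _ := by rw [card_univ, Fintype.card_fun, Fintype.card_fin]

theorem sum_axis (u : ι → F) (x y : Fin (n + 1) → F)
    (i0 : ι) (hd : 1 ≤ d i0) (hu : u i0 ≠ 0) (w : Fin (n + 1) → F) (hw : w = x ∨ w = y)
    (S : Finset (Fin (n + 1) → F))
    (hS : ∀ z ∈ S, ∃ a : F, z = a • w) :
    ∑ z ∈ S, f3 d u x y z ≤ d i0 * (A2 d u x y).card := by
  classical
  refine sum_le_of S _ 1 _ (d i0) one_pos (fun z _ => ?_) ?_
  · rw [mul_one]
    exact f3_le d u x y z
  · rw [mul_one]
    refine le_trans ?_ (card_pow_eq_one (F := F) (d i0) hd)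
    have hsub : (S.filter fun z => f3 d u x y z ≠ 0) ⊆
        (univ.filter fun a : F => a ^ d i0 = 1).image fun a => a • w := by
      intro z hz
      rw [mem_filter] at hz
      obtain ⟨a, ha⟩ := hS z hz.1
      obtain ⟨c, hc⟩ := f3_ne_zero d hz.2
      rw [mem_image]
      refine ⟨a, ?_, ha.symm⟩
      rw [mem_filter]
      refine ⟨mem_univ _, ?_⟩
      have h1 := (hc i0).2.2
      rw [ha, ev_smul_right] at h1
      have h2 : ev (c i0) w = u i0 := by
        rcases hw with rfl | rfl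
        · exact (hc i0).1
        · exact (hc i0).2.1
      rw [h2] at h1
      exact mul_right_cancel₀ hu (h1.trans (one_mul _).symm)
    exact (card_le_card hsub).trans card_image_le

theorem sum_mid (hd : ∀ i, 1 ≤ d i) (u : ι → F) (x y : Fin (n + 1) → F) (hx : x ≠ 0)
    (hxy : ∀ t : F, y ≠ t • x) (i0 i1 : ι) (h01 : i0 ≠ i1) (h0 : 2 ≤ d i0) (hu : u i1 ≠ 0)
    (S : Finset (Fin (n + 1) → F))
    (hS : ∀ z ∈ S, ∃ a b : F, a ≠ 0 ∧ b ≠ 0 ∧ z = a • x + b • y) :
    ∑ z ∈ S, f3 d u x y z ≤ 1 * (A2 d u x y).card := by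
  classical
  by_cases h1 : 2 ≤ d i1
  · refine sum_le_of S _ (Fintype.card F ^ 2) _ 1 (by positivity) (fun z hz => ?_) ?_
    · obtain ⟨a, b, ha, hb, rfl⟩ := hS z hz
      have h2 := card_A3_in d u x y hx hxy a b ha hb {i0, i1} (by
        intro i hi
        rw [mem_insert, mem_singleton] at hi
        rcases hi with rfl | rfl
        · exact h0
        · exact h1)
      rw [card_pair h01] at h2
      rw [← h2]
      refine Nat.mul_le_mul_right _ (card_le_card ?_)
      intro c hc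
      rw [mem_filter] at hc ⊢
      exact ⟨hc.1, fun i _ => hc.2 i⟩
    · rw [one_mul]
      have hsub : (S.filter fun z => f3 d u x y z ≠ 0) ⊆
          (univ : Finset (F × F)).image fun p => p.1 • x + p.2 • y := by
        intro z hz
        rw [mem_filter] at hz
        obtain ⟨a, b, ha, hb, rfl⟩ := hS z hz.1
        rw [mem_image]
        exact ⟨(a, b), mem_univ _, rfl⟩
      refine (card_le_card hsub).trans (card_image_le.trans ?_)
      rw [card_univ, Fintype.card_prod, sq]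
  · have h1' : d i1 = 1 := by have := hd i1; omega
    refine sum_le_of S _ (Fintype.card F ^ 1) _ 1 (by positivity) (fun z hz => ?_) ?_
    · obtain ⟨a, b, ha, hb, rfl⟩ := hS z hz
      have h2 := card_A3_in d u x y hx hxy a b ha hb {i0} (by
        intro i hi
        rw [mem_singleton] at hi
        rw [hi]
        exact h0)
      rw [card_singleton] at h2
      rw [← h2]
      refine Nat.mul_le_mul_right _ (card_le_card ?_)
      intro c hc
      rw [mem_filter] at hc ⊢
      exact ⟨hc.1, fun i _ => hc.2 i⟩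
    · rw [one_mul, pow_one]
      have hsub : (S.filter fun z => f3 d u x y z ≠ 0) ⊆
          (univ : Finset F).image fun a => a • x + (1 - a) • y := by
        intro z hz
        rw [mem_filter] at hz
        obtain ⟨a, b, ha, hb, rfl⟩ := hS z hz.1
        obtain ⟨c, hc⟩ := f3_ne_zero d hz.2
        rw [mem_image]
        refine ⟨a, mem_univ _, ?_⟩
        have h3 := (hc i1).2.2
        rw [ev_one_right h1', ev_smul_right, ev_smul_right, (hc i1).1, (hc i1).2.1, ← add_mul,
          h1', pow_one, pow_one] at h3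
        have h4 : a + b = 1 := mul_right_cancel₀ hu (h3.trans (one_mul _).symm)
        rw [← h4, add_sub_cancel_left]
      refine (card_le_card hsub).trans (card_image_le.trans ?_)
      rw [card_univ]

theorem sum_z (hd : ∀ i, 1 ≤ d i) (hι : Fintype.card ι = n + 1) (u : ι → F) (hu : ∀ i, u i ≠ 0)
    (x y : Fin (n + 1) → F) (hx : x ≠ 0)
    (hxy : ∀ t : F, y ≠ t • x) (i0 i1 : ι) (h01 : i0 ≠ i1) (h0 : 2 ≤ d i0)
    (S : Finset (Fin (n + 1) → F)) :
    ∑ z ∈ S, f3 d u x y z ≤ (2 + 2 * d i0) * (A2 d u x y).card := by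
  classical
  set S1 := S.filter fun z => z ∉ Submodule.span F {x, y} with hS1
  set S2 := S.filter fun z => z ∈ Submodule.span F {x, y} with hS2
  set S3 := S2.filter fun z => ∃ a b : F, a ≠ 0 ∧ b ≠ 0 ∧ z = a • x + b • y with hS3
  set S4 := S2.filter fun z => ¬∃ a b : F, a ≠ 0 ∧ b ≠ 0 ∧ z = a • x + b • y with hS4
  set S5 := S4.filter fun z => ∃ a : F, z = a • x with hS5
  set S6 := S4.filter fun z => ¬∃ a : F, z = a • x with hS6
  have e1 : ∑ z ∈ S2, f3 d u x y z + ∑ z ∈ S1, f3 d u x y z = ∑ z ∈ S, f3 d u x y z :=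
    sum_filter_add_sum_filter_not S _ _
  have e2 : ∑ z ∈ S3, f3 d u x y z + ∑ z ∈ S4, f3 d u x y z = ∑ z ∈ S2, f3 d u x y z :=
    sum_filter_add_sum_filter_not S2 _ _
  have e3 : ∑ z ∈ S5, f3 d u x y z + ∑ z ∈ S6, f3 d u x y z = ∑ z ∈ S4, f3 d u x y z :=
    sum_filter_add_sum_filter_not S4 _ _
  have b1 := sum_out d hd hι u x y S1 (fun z hz => (mem_filter.mp hz).2)
  have b3 := sum_mid d hd u x y hx hxy i0 i1 h01 h0 (hu i1) S3 (fun z hz => (mem_filter.mp hz).2)
  have b5 := sum_axis d u x y i0 (hd i0) (hu i0) x (Or.inl rfl) S5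
    (fun z hz => (mem_filter.mp hz).2)
  have b6 := sum_axis d u x y i0 (hd i0) (hu i0) y (Or.inr rfl) S6 (fun z hz => by
    obtain ⟨h1, h2⟩ := mem_filter.mp hz
    obtain ⟨h3, h4⟩ := mem_filter.mp h1
    obtain ⟨-, h5⟩ := mem_filter.mp h3
    obtain ⟨a, b, hab⟩ := Submodule.mem_span_pair.mp h5
    have hb : b ≠ 0 := by
      rintro rfl
      exact h2 ⟨a, by rw [← hab, zero_smul, add_zero]⟩
    have ha : a = 0 := by
      by_contra ha
      exact h4 ⟨a, b, ha, hb, hab.symm⟩
    exact ⟨b, by rw [← hab, ha, zero_smul, zero_add]⟩)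
  calc ∑ z ∈ S, f3 d u x y z = ∑ z ∈ S3, f3 d u x y z + (∑ z ∈ S5, f3 d u x y z +
        ∑ z ∈ S6, f3 d u x y z) + ∑ z ∈ S1, f3 d u x y z := by rw [← e1, ← e2, ← e3]
    _ ≤ 1 * (A2 d u x y).card + (d i0 * (A2 d u x y).card + d i0 * (A2 d u x y).card) +
        1 * (A2 d u x y).card := by gcongr
    _ = _ := by ring

end main

end Pool.Agent.Helper6.RH
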