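import Mathlib

/-!
Definitions: tuples of forms with bounded integer coefficients and the complements of the
hypersurfaces that they define.
-/

open AlgebraicGeometry CategoryTheory

namespace Pool.Agent.Helper6.RH

attribute [local instance] MvPolynomial.gradedAlgebra

/-- The tuples `F 0, …, F (k-1)` of forms in `n + 1` variables, `F i` of degree `d i`, with integer
coefficients of absolute value at most `H`. -/
def Box {k : ℕ} (n : ℕ) (d : Fin k → ℕ) (H : ℕ) : Set (Fin k → MvPolynomial (Fin (n + 1)) ℤ) :=
  {F | ∀ i, (F i).IsHomogeneous (d i) ∧ ∀ m, |(F i).coeff m| ≤ H}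

/-- The complement in the projective space `P^n` over `ℤ` of the union of the hypersurfaces
`F i = 0`: the open subscheme of `Proj ℤ[X₀, …, Xₙ]` where the product of the `F i` does not
vanish. -/
noncomputable def complement {n k : ℕ} (F : Fin k → MvPolynomial (Fin (n + 1)) ℤ) : Scheme.{0} :=
  (Proj.basicOpen (MvPolynomial.homogeneousSubmodule (Fin (n + 1)) ℤ) (∏ i, F i)).toScheme

end Pool.Agent.Helper6.RH
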