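import Mathlib

/-!
Forms as vectors of coefficients.
-/

namespace Pool.Agent.Helper6.RH

open Finset

/-- The exponents of the monomials of degree `d` in `n + 1` variables. -/
abbrev Mon (n d : ℕ) : Type := ↥((univ : Finset (Fin (n + 1))).finsuppAntidiag d)

theorem Mon.degree_eq {n d : ℕ} (m : Mon n d) : m.1.degree = d := by
  have h := (Finset.mem_finsuppAntidiag.mp m.2).1
  rw [Finsupp.degree_eq_sum]
  exact h

theorem mem_mon {n d : ℕ} (m : Fin (n + 1) →₀ ℕ) (h : m.degree = d) :
    m ∈ (univ : Finset (Fin (n + 1))).finsuppAntidiag d := by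
  rw [Finset.mem_finsuppAntidiag]
  rw [Finsupp.degree_eq_sum] at h
  exact ⟨h, Finset.subset_univ _⟩

section
variable {R : Type*} [CommRing R] {n d : ℕ}

/-- The value at `x` of the form with coefficients `c`. -/
def ev (c : Mon n d → R) (x : Fin (n + 1) → R) : R := ∑ m : Mon n d, c m * ∏ j, x j ^ (m.1 j)

/-- The vector of coefficients of a polynomial. -/
noncomputable def vec (P : MvPolynomial (Fin (n + 1)) R) (d : ℕ) : Mon n d → R :=
  fun m => P.coeff m.1

theorem ev_vec (P : MvPolynomial (Fin (n + 1)) R) (hP : P.IsHomogeneous d)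
    (x : Fin (n + 1) → R) : ev (vec P d) x = MvPolynomial.eval x P := by
  classical
  rw [MvPolynomial.eval_eq']
  unfold ev vec
  rw [Finset.sum_coe_sort ((univ : Finset (Fin (n + 1))).finsuppAntidiag d)
    (fun m => P.coeff m * ∏ j, x j ^ m j)]
  symm
  apply Finset.sum_subset
  · intro m hm
    apply mem_mon
    have h1 := hP (MvPolynomial.mem_support_iff.mp hm)
    rw [Finsupp.degree_eq_weight_one]
    exact h1
  · intro m _ hm
    rw [MvPolynomial.notMem_support_iff.mp hm, zero_mul]

theorem ev_add (c c' : Mon n d → R) (x : Fin (n + 1) → R) :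
    ev (c + c') x = ev c x + ev c' x := by
  unfold ev
  rw [← sum_add_distrib]
  exact sum_congr rfl fun m _ => by rw [Pi.add_apply, add_mul]

theorem ev_smul (t : R) (c : Mon n d → R) (x : Fin (n + 1) → R) :
    ev (t • c) x = t * ev c x := by
  unfold ev
  rw [mul_sum]
  exact sum_congr rfl fun m _ => by rw [Pi.smul_apply, smul_eq_mul, mul_assoc]

theorem ev_smul_right (t : R) (c : Mon n d → R) (x : Fin (n + 1) → R) :
    ev c (t • x) = t ^ d * ev c x := by
  unfold ev
  rw [mul_sum]
  refine sum_congr rfl fun m _ => ?_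
  have h1 : ∏ j, (t • x) j ^ (m.1 j) = t ^ d * ∏ j, x j ^ (m.1 j) := by
    simp only [Pi.smul_apply, smul_eq_mul, mul_pow]
    rw [prod_mul_distrib, prod_pow_eq_pow_sum]
    congr 2
    exact (Finset.mem_finsuppAntidiag.mp m.2).1
  rw [h1]
  ring

theorem ev_zero_right (hd : 1 ≤ d) (c : Mon n d → R) : ev c (0 : Fin (n + 1) → R) = 0 := by
  have h := ev_smul_right (0 : R) c 0
  rw [zero_smul, zero_pow (by omega), zero_mul] at h
  exact h

theorem ev_one_right (hd : d = 1) (c : Mon n d → R) (x y : Fin (n + 1) → R) :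
    ev c (x + y) = ev c x + ev c y := by
  subst hd
  unfold ev
  rw [← sum_add_distrib]
  refine sum_congr rfl fun m _ => ?_
  have h1 : m.1.degree = 1 := m.degree_eq
  obtain ⟨k, hk⟩ : ∃ k, m.1 = Finsupp.single k 1 := by
    have h2 : m.1 ∈ Set.range (fun a : Fin (n + 1) => Finsupp.single a 1) := by
      rw [Finsupp.range_single_one]
      exact h1
    obtain ⟨k, hk⟩ := h2
    exact ⟨k, hk.symm⟩
  rw [← mul_add]
  congr 1
  have key : ∀ z : Fin (n + 1) → R, ∏ j, z j ^ (m.1 j) = z k := by
    intro z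
    rw [hk, Finset.prod_eq_single k]
    · simp
    · intro j _ hj
      rw [Finsupp.single_apply, if_neg (Ne.symm hj), pow_zero]
    · simp
  rw [key, key, key]
  rfl

theorem ev_map {S : Type*} [CommRing S] (f : R →+* S) (c : Mon n d → R) (x : Fin (n + 1) → R) :
    ev (fun m => f (c m)) (fun j => f (x j)) = f (ev c x) := by
  unfold ev
  rw [map_sum]
  exact sum_congr rfl fun m _ => by rw [map_mul, map_prod]; simp only [map_pow]

end

section field
variable {F : Type*} [Field F] {n : ℕ}

/-- A product of linear forms as a vector. -/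
theorem exists_vec (α β : Module.Dual F (Fin (n + 1) → F)) (k l m : ℕ) (hm : k + l = m) :
    ∃ c : Mon n m → F, ∀ x, ev c x = α x ^ k * β x ^ l := by
  classical
  subst hm
  have hlin : ∀ γ : Module.Dual F (Fin (n + 1) → F), ∃ P : MvPolynomial (Fin (n + 1)) F,
      P.IsHomogeneous 1 ∧ ∀ x, MvPolynomial.eval x P = γ x := by
    intro γ
    refine ⟨∑ j, MvPolynomial.C (γ (Pi.single j 1)) * MvPolynomial.X j, ?_, fun x => ?_⟩
    · apply MvPolynomial.IsHomogeneous.sum
      intro j _
      have := (MvPolynomial.isHomogeneous_C (Fin (n + 1)) (γ (Pi.single j 1))).mul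
        (MvPolynomial.isHomogeneous_X F j)
      rwa [zero_add] at this
    · rw [map_sum]
      conv_rhs => rw [← Finset.univ_sum_single x, map_sum]
      refine sum_congr rfl fun j _ => ?_
      have : (Pi.single j (x j) : Fin (n + 1) → F) = x j • Pi.single j 1 := by
        rw [← Pi.single_smul, smul_eq_mul, mul_one]
      rw [map_mul, MvPolynomial.eval_C, MvPolynomial.eval_X, this, map_smul, smul_eq_mul, mul_comm]
  obtain ⟨P, hP, hP'⟩ := hlin α
  obtain ⟨Q, hQ, hQ'⟩ := hlin β
  refine ⟨vec (P ^ k * Q ^ l) (k + l), fun x => ?_⟩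
  rw [ev_vec, map_mul, map_pow, map_pow, hP', hQ']
  have := (hP.pow k).mul (hQ.pow l)
  rwa [one_mul, one_mul] at this

theorem exists_dual (p : Submodule F (Fin (n + 1) → F)) (z : Fin (n + 1) → F) (hz : z ∉ p) :
    ∃ γ : Module.Dual F (Fin (n + 1) → F), γ z = 1 ∧ ∀ x ∈ p, γ x = 0 := by
  obtain ⟨f, hf, hf'⟩ := Submodule.exists_le_ker_of_notMem hz
  refine ⟨(f z)⁻¹ • f, ?_, fun x hx => ?_⟩
  · rw [LinearMap.smul_apply, smul_eq_mul, inv_mul_cancel₀ hf]
  · rw [LinearMap.smul_apply, (hf' hx : f x = 0), smul_zero]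

end field

end Pool.Agent.Helper6.RH
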